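import Pool.Agent.H70.TC.Main

set_option autoImplicit false
open scoped Pointwise

namespace Pool.Agent.Results.MP_71837e_co.AllButThree

/-- For every `K` three points pierce all families except at most three. -/
theorem result :
    ∀ (n : ℕ), 2 ≤ n →
    ∀ (K : Set (EuclideanSpace ℝ (Fin 2))), IsCompact K → Convex ℝ K →
    ∀ (F : Fin n → Set (EuclideanSpace ℝ (Fin 2))),
      (∀ i, (F i).Nonempty) →
      (∀ i j : Fin n, i ≠ j → ∀ a ∈ F i, ∀ b ∈ F j, ((a +ᵥ K) ∩ (b +ᵥ K)).Nonempty) →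
      ∃ M : Finset (Fin n), M.card ≤ 3 ∧ ∃ P : Finset (EuclideanSpace ℝ (Fin 2)), P.card ≤ 3 ∧
        ∀ i : Fin n, i ∉ M → ∀ a ∈ F i, ∃ p ∈ P, p ∈ a +ᵥ K := by
  classical
  intro n hn K hK hKc F hF hint
  have hmemv : ∀ (p a : EuclideanSpace ℝ (Fin 2)), p ∈ a +ᵥ K ↔ ∃ x ∈ K, x + a = p := by
    intro p a
    rw [Set.mem_vadd_set]
    constructor
    · rintro ⟨x, hx, h⟩; exact ⟨x, hx, by rw [← h, vadd_eq_add, add_comm]⟩
    · rintro ⟨x, hx, h⟩; exact ⟨x, hx, by rw [← h, vadd_eq_add, add_comm]⟩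
  have hint' : ∀ i j : Fin n, i ≠ j → ∀ a ∈ F i, ∀ b ∈ F j, ∃ x ∈ K, ∃ y ∈ K, x + a = y + b := by
    intro i j hij a ha b hb
    obtain ⟨z, hz1, hz2⟩ := hint i j hij a ha b hb
    obtain ⟨x, hx, hx'⟩ := (hmemv z a).1 hz1
    obtain ⟨y, hy, hy'⟩ := (hmemv z b).1 hz2
    exact ⟨x, hx, y, hy, by rw [hx', hy']⟩
  have hKne : K.Nonempty := by
    obtain ⟨a, ha⟩ := hF ⟨0, by omega⟩
    obtain ⟨b, hb⟩ := hF ⟨1, by omega⟩
    obtain ⟨x, hx, -⟩ := hint' ⟨0, by omega⟩ ⟨1, by omega⟩ (by simp) a ha b hb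
    exact ⟨x, hx⟩
  obtain ⟨M, hM, P, hP⟩ := Pool.Agent.H70.TC.main hn F hF hK hKne hKc hint'
  refine ⟨M, hM, Finset.univ.image P, Finset.card_image_le.trans (by simp), ?_⟩
  intro i hi a ha
  obtain ⟨k, x, hx, hk⟩ := hP i hi a ha
  exact ⟨P k, Finset.mem_image.2 ⟨k, Finset.mem_univ k, rfl⟩, (hmemv _ _).2 ⟨x, hx, hk⟩⟩

end Pool.Agent.Results.MP_71837e_co.AllButThree
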